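import Pool.Agent.Helper5.Burn.Step

/-! # An unbounded torsion ui-group without nontrivial divisible subgroups

Negative answer to Q1.  The group is the quotient of the ultrapower `F ^ ω / U` of the free group `F`
of countable rank by the normal subgroup of the classes of the sequences which are, for every `L`,
almost everywhere in `T L`, where `T 0 ≥ T 1 ≥ …` is a chain of normal subgroups of `F` such that
`F / T L` has exponent `n₀ 3 ^ L` and every element outside `T L` has order dividing `n₀ 3 ^ L` modulo
all the `T L'`.  The chain comes from a graded Burnside theorem (free group modulo powers with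
exponents depending on the level of the element), proved with iterated coned-off graphs and rotation
families. -/

namespace Pool.Agent.Results.MP_70ec2f_al.NoDivisible
open Pool.Agent.Helper5.Burn

/-- There is a ui-group which is an unbounded torsion group and whose only divisible subgroup is
trivial. -/
theorem result : ∃ (H : Type) (_ : Group H), IsUiGroup H ∧
    (∀ h : H, ∃ n : ℕ, 1 ≤ n ∧ h ^ n = 1) ∧
    (¬ ∃ n : ℕ, 1 ≤ n ∧ ∀ h : H, h ^ n = 1) ∧
    ∀ D : Subgroup H, (∀ d ∈ D, ∀ n : ℕ, 1 ≤ n → ∃ x ∈ D, x ^ n = d) → D = ⊥ :=
  negQ1

end Pool.Agent.Results.MP_70ec2f_al.NoDivisible
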